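import Pool.Agent.W2helper63.LL.Fin2

set_option autoImplicit false

noncomputable section

namespace Pool.Agent.W2helper75.LL

open Pool.Agent.W2helper63.LL
open IsDedekindDomain Polynomial Matrix WithZero
open scoped Classical

/-- the finite adele equal to `x` at `v` and to `d` elsewhere -/
def upd (v : Pl) (d : Af) (x : Kv v) : Af :=
  ⟨fun w => Function.update (fun w : Pl => (d w : Kv w)) v x w, by
    have h := d.2
    have hf : ∀ᶠ w : Pl in Filter.cofinite, w ≠ v := by
      rw [Filter.eventually_cofinite]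
      simp
    filter_upwards [h, hf] with w hw hwv
    rw [Function.update_of_ne hwv]
    exact hw⟩

theorem upd_same (v : Pl) (d : Af) (x : Kv v) : (upd v d x) v = x := by
  show Function.update (fun w : Pl => (d w : Kv w)) v x v = x
  rw [Function.update_self]

theorem upd_ne (v w : Pl) (hw : w ≠ v) (d : Af) (x : Kv v) : (upd v d x) w = d w := by
  show Function.update (fun w : Pl => (d w : Kv w)) v x w = d w
  rw [Function.update_of_ne hw]

/-- the matrix equal to `m` at `v` and to `1` elsewhere -/
def updM (v : Pl) (m : Matrix (Fin 2) (Fin 2) (Kv v)) : Matrix (Fin 2) (Fin 2) Af :=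
  fun i j => upd v ((1 : Matrix (Fin 2) (Fin 2) Af) i j) (m i j)

theorem updM_same (v : Pl) (m : Matrix (Fin 2) (Fin 2) (Kv v)) :
    (ev v).mapMatrix (updM v m) = m := by
  refine Matrix.ext fun i j => ?_
  exact upd_same v _ _

theorem updM_ne (v w : Pl) (hw : w ≠ v) (m : Matrix (Fin 2) (Fin 2) (Kv v)) :
    (ev w).mapMatrix (updM v m) = 1 := by
  have h1 : (ev w).mapMatrix (1 : Matrix (Fin 2) (Fin 2) Af) = 1 := map_one _
  rw [← h1]
  refine Matrix.ext fun i j => ?_
  exact upd_ne v w hw _ _

theorem mat_ext (m n : Matrix (Fin 2) (Fin 2) Af)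
    (h : ∀ w : Pl, (ev w).mapMatrix m = (ev w).mapMatrix n) : m = n := by
  refine Matrix.ext fun i j => ?_
  apply RestrictedProduct.ext
  intro w
  have := congrFun (congrFun (h w) i) j
  exact this

theorem updM_mul (v : Pl) (m n : Matrix (Fin 2) (Fin 2) (Kv v)) (h : m * n = 1) :
    updM v m * updM v n = 1 := by
  apply mat_ext
  intro w
  rw [map_mul, map_one]
  by_cases hw : w = v
  · subst hw
    rw [updM_same, updM_same, h]
  · rw [updM_ne v w hw, updM_ne v w hw, one_mul]

/-- the element of `GL₂(Af)` equal to `h` at `v` and to `1` elsewhere -/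
def updG (v : Pl) (h : GL (Fin 2) (Kv v)) : GL (Fin 2) Af where
  val := updM v h.1
  inv := updM v h⁻¹.1
  val_inv := updM_mul v _ _ h.val_inv
  inv_val := updM_mul v _ _ h.inv_val

theorem emb : S_EMB := by
  intro v h
  refine ⟨(updG v h, 1), rfl, fun w hw => ?_, ?_⟩
  · apply Units.ext
    exact updM_ne v w hw h.1
  · apply Units.ext
    exact updM_same v h.1

end Pool.Agent.W2helper75.LL
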